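import Mathlib

set_option autoImplicit false

namespace Pool.Agent.H409R3.TR

open Finset

variable {N : ℕ}

/-- 0/1 indicator of a set of sites -/
def ind (A : Finset (Fin (N+1))) (x : Fin (N+1)) : ℕ := if x ∈ A then 1 else 0

lemma ind_le (A : Finset (Fin (N+1))) (x : Fin (N+1)) : ind A x ≤ 1 := by
  unfold ind; split_ifs <;> omega

lemma ind_eq_one {A : Finset (Fin (N+1))} {x : Fin (N+1)} : ind A x = 1 ↔ x ∈ A := by
  unfold ind; split_ifs <;> simp_all

lemma ind_pos {A : Finset (Fin (N+1))} {x : Fin (N+1)} (h : x ∈ A) : ind A x = 1 := by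
  simp [ind, h]

lemma ind_neg {A : Finset (Fin (N+1))} {x : Fin (N+1)} (h : x ∉ A) : ind A x = 0 := by
  simp [ind, h]

lemma ind_mono {A B : Finset (Fin (N+1))} (h : A ⊆ B) (x : Fin (N+1)) : ind A x ≤ ind B x := by
  unfold ind
  split_ifs with h1 h2 <;> first | omega | exact absurd (h h1) h2

lemma sum_ind (A : Finset (Fin (N+1))) : ∑ x, ind A x = A.card := by
  unfold ind
  rw [Finset.sum_boole]
  simp

/-- going around the ring -/
lemma around (P : Fin (N+1) → Prop) (x0 : Fin (N+1)) (h0 : P x0)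
    (hs : ∀ x, P x → P (x+1)) : ∀ x, P x := by
  have key : ∀ k : ℕ, ∀ y : Fin (N+1), y.val = (x0.val + k) % (N+1) → P y := by
    intro k
    induction k with
    | zero =>
      intro y hy
      have : y = x0 := by
        apply Fin.ext
        rw [hy, Nat.add_zero, Nat.mod_eq_of_lt x0.isLt]
      rwa [this]
    | succ k ih =>
      intro y hy
      have h1 := ih ⟨(x0.val + k) % (N+1), Nat.mod_lt _ (Nat.succ_pos _)⟩ rfl
      have h2 := hs _ h1
      have : y = (⟨(x0.val + k) % (N+1), Nat.mod_lt _ (Nat.succ_pos _)⟩ : Fin (N+1)) + 1 := by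
        apply Fin.ext
        rw [hy, Fin.val_add]
        have h1 : (1 : Fin (N+1)).val = 1 % (N+1) := by
          simp
        rw [h1, ← Nat.add_assoc]
        simp [Nat.add_mod]
      rwa [this]
  intro x
  refine key (x.val + (N + 1) - x0.val) x ?_
  have : x0.val + (x.val + (N+1) - x0.val) = x.val + (N+1) := by
    have := x0.isLt
    omega
  rw [this, Nat.add_mod_right, Nat.mod_eq_of_lt x.isLt]

/-- `Z x` is the number of waiting customers just after site `x`. -/
def IsQ (A C : Finset (Fin (N+1))) (Z : Fin (N+1) → ℕ) : Prop :=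
  ∀ x, Z x = Z (x - 1) + ind A x - ind C x

/-- departures -/
def dep (A C : Finset (Fin (N+1))) (Z : Fin (N+1) → ℕ) : Finset (Fin (N+1)) :=
  C.filter (fun x => 1 ≤ Z (x - 1) + ind A x)

lemma mem_dep {A C : Finset (Fin (N+1))} {Z : Fin (N+1) → ℕ} {x : Fin (N+1)} :
    x ∈ dep A C Z ↔ x ∈ C ∧ 1 ≤ Z (x - 1) + ind A x := by
  simp [dep]

lemma dep_subset (A C : Finset (Fin (N+1))) (Z : Fin (N+1) → ℕ) : dep A C Z ⊆ C :=
  Finset.filter_subset _ _

lemma balance {A C : Finset (Fin (N+1))} {Z : Fin (N+1) → ℕ} (h : IsQ A C Z) (x : Fin (N+1)) :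
    Z x + ind (dep A C Z) x = Z (x - 1) + ind A x := by
  have h1 := h x
  by_cases hC : x ∈ C
  · by_cases hZ : 1 ≤ Z (x - 1) + ind A x
    · rw [ind_pos (mem_dep.2 ⟨hC, hZ⟩)]
      rw [ind_pos hC] at h1
      omega
    · rw [ind_neg (fun h => hZ (mem_dep.1 h).2)]
      rw [ind_pos hC] at h1
      omega
  · rw [ind_neg (fun h => hC (mem_dep.1 h).1)]
    rw [ind_neg hC] at h1
    omega

lemma sum_shift (Z : Fin (N+1) → ℕ) : ∑ x, Z (x - 1) = ∑ x, Z x :=
  Equiv.sum_comp (Equiv.subRight (1 : Fin (N+1))) Z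

lemma card_dep {A C : Finset (Fin (N+1))} {Z : Fin (N+1) → ℕ} (h : IsQ A C Z) :
    (dep A C Z).card = A.card := by
  have h1 : ∑ x, (Z x + ind (dep A C Z) x) = ∑ x, (Z (x - 1) + ind A x) :=
    Finset.sum_congr rfl (fun x _ => balance h x)
  rw [Finset.sum_add_distrib, Finset.sum_add_distrib, sum_shift, sum_ind, sum_ind] at h1
  omega

/-- an unused service exists -/
lemma exists_unused {A C : Finset (Fin (N+1))} {Z : Fin (N+1) → ℕ} (h : IsQ A C Z)
    (hc : A.card < C.card) : ∃ z ∈ C, Z (z - 1) = 0 ∧ z ∉ A ∧ Z z = 0 ∧ z ∉ dep A C Z := by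
  have h1 : (dep A C Z).card < C.card := by rw [card_dep h]; exact hc
  obtain ⟨z, hz, hz'⟩ := Finset.exists_mem_notMem_of_card_lt_card h1
  have h2 : ¬ (1 ≤ Z (z - 1) + ind A z) := fun h3 => hz' (mem_dep.2 ⟨hz, h3⟩)
  have h3 := h z
  refine ⟨z, hz, by omega, ?_, by omega, hz'⟩
  intro hA
  rw [ind_pos hA] at h2
  omega

/-- comparison -/
lemma comp {A B C C' : Finset (Fin (N+1))} {Z Z' : Fin (N+1) → ℕ} (h : IsQ A C Z)
    (h' : IsQ B C' Z') (hAB : A ⊆ B) (hC : C' ⊆ C) (z : Fin (N+1)) (hz : Z z ≤ Z' z) :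
    ∀ x, Z x ≤ Z' x := by
  refine around _ z hz ?_
  intro x hx
  have h1 := h (x + 1)
  have h2 := h' (x + 1)
  rw [add_sub_cancel_right] at h1 h2
  have h3 := ind_mono hAB (x + 1)
  have h4 := ind_mono hC (x + 1)
  omega

lemma uniqQ {A C : Finset (Fin (N+1))} {Z Z' : Fin (N+1) → ℕ} (h : IsQ A C Z)
    (h' : IsQ A C Z') (hc : A.card < C.card) : Z = Z' := by
  obtain ⟨z, _, _, _, hz, _⟩ := exists_unused h hc
  obtain ⟨z', _, _, _, hz', _⟩ := exists_unused h' hc
  funext x
  exact le_antisymm (comp h h' (Finset.Subset.refl _) (Finset.Subset.refl _) z (by omega) x)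
    (comp h' h (Finset.Subset.refl _) (Finset.Subset.refl _) z' (by omega) x)

lemma sub_one_val (x : Fin (N+1)) : (x - 1).val = if x.val = 0 then N else x.val - 1 := by
  rw [Fin.coe_sub_one]
  simp only [Fin.ext_iff, Fin.val_zero]

/-- existence -/
lemma existsQ (A C : Finset (Fin (N+1))) (hc : A.card ≤ C.card) : ∃ Z, IsQ A C Z := by
  classical
  -- supersolutions
  let Φ : (Fin (N+1) → ℕ) → (Fin (N+1) → ℕ) := fun Z x => Z (x - 1) + ind A x - ind C x
  let S : Set (Fin (N+1) → ℕ) := {Z | ∀ x, Φ Z x ≤ Z x}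
  let B : Fin (N+1) → ℕ := fun x =>
    (N + 1) + (A.filter (fun y => y ≤ x)).card - (C.filter (fun y => y ≤ x)).card
  have hcard : ∀ D : Finset (Fin (N+1)), ∀ x : Fin (N+1), x.val ≠ 0 →
      (D.filter (fun y => y ≤ x)).card = (D.filter (fun y => y ≤ x - 1)).card + ind D x := by
    intro D x hx
    have hv := sub_one_val x
    rw [if_neg hx] at hv
    have hsplit : D.filter (fun y => y ≤ x) =
        D.filter (fun y => y ≤ x - 1) ∪ D.filter (fun y => y = x) := by
      ext y
      simp only [Finset.mem_filter, Finset.mem_union]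
      constructor
      · rintro ⟨h1, h2⟩
        by_cases h3 : y = x
        · exact Or.inr ⟨h1, h3⟩
        · left
          refine ⟨h1, ?_⟩
          rw [Fin.le_def, hv]
          have h4 : y.val ≠ x.val := fun h => h3 (Fin.ext h)
          have h5 : y.val ≤ x.val := h2
          omega
      · rintro (⟨h1, h2⟩ | ⟨h1, h2⟩)
        · refine ⟨h1, ?_⟩
          rw [Fin.le_def, hv] at h2
          rw [Fin.le_def]
          omega
        · exact ⟨h1, h2.le⟩
    rw [hsplit, Finset.card_union_of_disjoint]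
    · congr 1
      by_cases hD : x ∈ D
      · rw [ind_pos hD, Finset.filter_eq']
        simp [hD]
      · rw [ind_neg hD, Finset.filter_eq']
        simp [hD]
    · rw [Finset.disjoint_left]
      intro y h1 h2
      have h3 := (Finset.mem_filter.1 h1).2
      have h4 := (Finset.mem_filter.1 h2).2
      rw [h4, Fin.le_def, hv] at h3
      omega
  have hcard0 : ∀ D : Finset (Fin (N+1)), ∀ x : Fin (N+1), x.val = 0 →
      (D.filter (fun y => y ≤ x)).card = ind D x ∧ D.filter (fun y => y ≤ x - 1) = D := by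
    intro D x hx
    have hv := sub_one_val x
    rw [if_pos hx] at hv
    constructor
    · have : D.filter (fun y => y ≤ x) = D.filter (fun y => y = x) := by
        ext y
        simp only [Finset.mem_filter, and_congr_right_iff]
        intro _
        rw [Fin.le_def, Fin.ext_iff]
        omega
      rw [this, Finset.filter_eq']
      by_cases hD : x ∈ D
      · rw [ind_pos hD]; simp [hD]
      · rw [ind_neg hD]; simp [hD]
    · apply Finset.filter_true_of_mem
      intro y _
      rw [Fin.le_def, hv]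
      omega
  have hle : ∀ D : Finset (Fin (N+1)), D.card ≤ N + 1 := fun D => by
    have := Finset.card_le_univ D
    simpa using this
  have hB : B ∈ S := by
    intro x
    show B (x - 1) + ind A x - ind C x ≤ B x
    by_cases hx : x.val = 0
    · obtain ⟨a1, a2⟩ := hcard0 A x hx
      obtain ⟨c1, c2⟩ := hcard0 C x hx
      show (N + 1) + (A.filter (fun y => y ≤ x - 1)).card - (C.filter (fun y => y ≤ x - 1)).card
        + ind A x - ind C x ≤
        (N + 1) + (A.filter (fun y => y ≤ x)).card - (C.filter (fun y => y ≤ x)).card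
      rw [a1, a2, c1, c2]
      have := hle C
      omega
    · have a1 := hcard A x hx
      have c1 := hcard C x hx
      show (N + 1) + (A.filter (fun y => y ≤ x - 1)).card - (C.filter (fun y => y ≤ x - 1)).card
        + ind A x - ind C x ≤
        (N + 1) + (A.filter (fun y => y ≤ x)).card - (C.filter (fun y => y ≤ x)).card
      rw [a1, c1]
      have h3 := hle (C.filter (fun y => y ≤ x - 1))
      omega
  -- minimal total mass
  have hne : ∃ k, ∃ Z ∈ S, ∑ x, Z x = k := ⟨_, B, hB, rfl⟩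
  obtain ⟨Z, hZS, hZk⟩ := Nat.find_spec hne
  have hmin := fun k => Nat.find_min' hne (m := k)
  refine ⟨Z, ?_⟩
  have hΦS : Φ Z ∈ S := by
    intro x
    show Φ Z (x - 1) + ind A x - ind C x ≤ Z (x - 1) + ind A x - ind C x
    have := hZS (x - 1)
    omega
  have h1 : ∑ x, Z x ≤ ∑ x, Φ Z x := by
    rw [hZk]
    exact hmin _ ⟨Φ Z, hΦS, rfl⟩
  have h2 : ∀ x ∈ (Finset.univ : Finset (Fin (N+1))), Φ Z x ≤ Z x := fun x _ => hZS x
  have h3 := (Finset.sum_eq_sum_iff_of_le h2).1 (le_antisymm (Finset.sum_le_sum h2) h1)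
  intro x
  exact (h3 x (Finset.mem_univ x)).symm

/-- the queue-length profile -/
noncomputable def Zf (A C : Finset (Fin (N+1))) : Fin (N+1) → ℕ :=
  open Classical in if h : ∃ Z, IsQ A C Z then h.choose else 0

lemma Zf_isQ {A C : Finset (Fin (N+1))} (hc : A.card ≤ C.card) : IsQ A C (Zf A C) := by
  unfold Zf
  rw [dif_pos (existsQ A C hc)]
  exact (existsQ A C hc).choose_spec

/-- the departure set -/
noncomputable def D (A C : Finset (Fin (N+1))) : Finset (Fin (N+1)) := dep A C (Zf A C)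

lemma D_eq {A C : Finset (Fin (N+1))} {Z : Fin (N+1) → ℕ} (h : IsQ A C Z)
    (hc : A.card < C.card) : D A C = dep A C Z := by
  unfold D
  rw [uniqQ (Zf_isQ hc.le) h hc]

lemma card_D {A C : Finset (Fin (N+1))} (hc : A.card ≤ C.card) : (D A C).card = A.card :=
  card_dep (Zf_isQ hc)

end Pool.Agent.H409R3.TR
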