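import Pool.Agent.H409R3.Ring1

set_option autoImplicit false
set_option linter.unusedSimpArgs false

namespace Pool.Agent.H409R3.TR

open Finset

variable {N : ℕ}

/-- the sorting move of a set across the edge `(x, x+1)`: members move left -/
def sortS (x : Fin (N+1)) (A : Finset (Fin (N+1))) : Finset (Fin (N+1)) :=
  if x ∉ A ∧ x + 1 ∈ A then A.map (Equiv.swap x (x + 1)).toEmbedding else A

lemma mem_swap_map {x y : Fin (N+1)} {A : Finset (Fin (N+1))} {z : Fin (N+1)} :
    z ∈ A.map (Equiv.swap x y).toEmbedding ↔ Equiv.swap x y z ∈ A := by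
  rw [Finset.mem_map_equiv, Equiv.symm_swap]

lemma card_sortS (x : Fin (N+1)) (A : Finset (Fin (N+1))) : (sortS x A).card = A.card := by
  unfold sortS
  split_ifs <;> simp

lemma add_one_ne {x : Fin (N+1)} (hN : N ≠ 0) : x + 1 ≠ x := by
  intro h
  have h1 : (1 : Fin (N+1)) = 0 := by
    have := congrArg (fun y => y - x) h
    simpa using this
  have h2 := congrArg Fin.val h1
  rcases N with _ | N
  · exact hN rfl
  · simp at h2

lemma sortS_of_ne {x y : Fin (N+1)} {A : Finset (Fin (N+1))} (h1 : y ≠ x) (h2 : y ≠ x + 1) :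
    y ∈ sortS x A ↔ y ∈ A := by
  unfold sortS
  split_ifs
  · rw [mem_swap_map, Equiv.swap_apply_of_ne_of_ne h1 h2]
  · rfl

lemma sortS_left {x : Fin (N+1)} {A : Finset (Fin (N+1))} :
    x ∈ sortS x A ↔ (x ∈ A ∨ x + 1 ∈ A) := by
  unfold sortS
  split_ifs with h
  · rw [mem_swap_map, Equiv.swap_apply_left]
    tauto
  · tauto

lemma sortS_right {x : Fin (N+1)} {A : Finset (Fin (N+1))} :
    x + 1 ∈ sortS x A ↔ (x ∈ A ∧ x + 1 ∈ A) := by
  unfold sortS
  split_ifs with h
  · rw [mem_swap_map, Equiv.swap_apply_right]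
    tauto
  · tauto

lemma ind_sort_ne {x y : Fin (N+1)} {A : Finset (Fin (N+1))} (h1 : y ≠ x) (h2 : y ≠ x + 1) :
    ind (sortS x A) y = ind A y := by
  unfold ind
  simp only [sortS_of_ne h1 h2]

lemma sub_one_ne {x : Fin (N+1)} (hN : N ≠ 0) : x - 1 ≠ x := by
  intro h
  have := add_one_ne (x := x - 1) hN
  rw [sub_add_cancel] at this
  exact this h.symm

/-- Equivariance off the `10`-edges of `C`. -/
lemma E1 {A C : Finset (Fin (N+1))} (hc : A.card < C.card) {x : Fin (N+1)}
    (hx : ¬ (x ∈ C ∧ x + 1 ∉ C)) : D (sortS x A) (sortS x C) = sortS x (D A C) := by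
  classical
  rcases Nat.eq_zero_or_pos N with hN | hN
  · subst hN
    have h1 : x + 1 = x := Fin.ext (by omega)
    have h2 : ∀ B : Finset (Fin (0+1)), sortS x B = B := by
      intro B
      unfold sortS
      rw [h1, if_neg (by tauto)]
    rw [h2, h2, h2]
  have hN' : N ≠ 0 := by omega
  set Z := Zf A C with hZdef
  have hZ : IsQ A C Z := Zf_isQ hc.le
  have hDAC : D A C = dep A C Z := rfl
  have hne1 : x + 1 ≠ x := add_one_ne hN'
  have hne2 : x - 1 ≠ x := sub_one_ne hN'
  set A' := sortS x A with hA'
  set C' := sortS x C with hC'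
  let Z' : Fin (N+1) → ℕ := Function.update Z x (Z (x - 1) + ind A' x - ind C' x)
  have hZ'x : Z' x = Z (x - 1) + ind A' x - ind C' x := Function.update_self _ _ _
  have hZ'ne : ∀ y, y ≠ x → Z' y = Z y := fun y hy => Function.update_of_ne hy _ _
  have hzx := hZ x
  have hzx1 := hZ (x + 1)
  rw [add_sub_cancel_right] at hzx1
  have hQ' : IsQ A' C' Z' := by
    intro y
    by_cases hy : y = x
    · subst hy
      rw [hZ'x, hZ'ne _ hne2]
    · by_cases hy1 : y = x + 1
      · subst hy1
        rw [add_sub_cancel_right, hZ'x, hZ'ne _ hne1, hzx1, hzx]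
        by_cases ha0 : x ∈ A <;> by_cases ha1 : x + 1 ∈ A <;> by_cases hc0 : x ∈ C <;>
          by_cases hc1 : x + 1 ∈ C <;>
          simp only [ind, hA', hC', sortS_left, sortS_right, ha0, ha1, hc0, hc1, true_and, and_true,
            false_and, and_false, true_or, or_true, false_or, or_false, if_true, if_false] <;>
          first
          | omega
          | exact absurd ⟨hc0, hc1⟩ hx
      · have h3 : y - 1 ≠ x := by
          intro h
          apply hy1
          rw [← h, sub_add_cancel]
        rw [hZ'ne _ hy, hZ'ne _ h3, hA', hC', ind_sort_ne hy hy1, ind_sort_ne hy hy1]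
        exact hZ y
  have hc' : A'.card < C'.card := by rw [hA', hC', card_sortS, card_sortS]; exact hc
  rw [D_eq hQ' hc', hDAC]
  ext y
  by_cases hy : y = x
  · subst hy
    have hL : y ∈ sortS y (dep A C Z) ↔ (y ∈ dep A C Z ∨ y + 1 ∈ dep A C Z) := sortS_left
    rw [hL, mem_dep, mem_dep, mem_dep, add_sub_cancel_right, hZ'ne _ hne2, hzx]
    by_cases ha0 : y ∈ A <;> by_cases ha1 : y + 1 ∈ A <;> by_cases hc0 : y ∈ C <;>
          by_cases hc1 : y + 1 ∈ C <;>
          simp only [ind, hA', hC', sortS_left, sortS_right, ha0, ha1, hc0, hc1, true_and, and_true,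
            false_and, and_false, true_or, or_true, false_or, or_false, if_true, if_false] <;>
          first
          | omega
          | exact absurd ⟨hc0, hc1⟩ hx
  · by_cases hy1 : y = x + 1
    · subst hy1
      have hL : x + 1 ∈ sortS x (dep A C Z) ↔ (x ∈ dep A C Z ∧ x + 1 ∈ dep A C Z) := sortS_right
      rw [hL, mem_dep, mem_dep, mem_dep, add_sub_cancel_right, hZ'x, hzx]
      by_cases ha0 : x ∈ A <;> by_cases ha1 : x + 1 ∈ A <;> by_cases hc0 : x ∈ C <;>
          by_cases hc1 : x + 1 ∈ C <;>
          simp only [ind, hA', hC', sortS_left, sortS_right, ha0, ha1, hc0, hc1, true_and, and_true,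
            false_and, and_false, true_or, or_true, false_or, or_false, if_true, if_false] <;>
          first
          | omega
          | exact absurd ⟨hc0, hc1⟩ hx
    · have h3 : y - 1 ≠ x := by
          intro h
          apply hy1
          rw [← h, sub_add_cancel]
      have hL : y ∈ sortS x (dep A C Z) ↔ y ∈ dep A C Z := sortS_of_ne hy hy1
      rw [hL, mem_dep, mem_dep, hZ'ne _ h3, hA', hC', ind_sort_ne hy hy1,
        sortS_of_ne hy hy1]

lemma E2 {A C : Finset (Fin (N+1))} {x : Fin (N+1)}
    (hx : x ∈ C ∧ x + 1 ∉ C) : sortS x (D A C) = D A C ∧ sortS x C = C := by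
  constructor
  · unfold sortS
    rw [if_neg]
    rintro ⟨_, h⟩
    exact hx.2 (dep_subset _ _ _ h)
  · unfold sortS
    rw [if_neg]
    rintro ⟨h, _⟩
    exact h hx.1

/-- Moving an arrival across a `01`-edge of `C` does not change the departures. -/
lemma E3 {A C : Finset (Fin (N+1))} (hc : A.card < C.card) {x : Fin (N+1)}
    (hx : x ∉ C ∧ x + 1 ∈ C) : D (sortS x A) C = D A C := by
  classical
  rcases Nat.eq_zero_or_pos N with hN | hN
  · subst hN
    have h1 : x + 1 = x := Fin.ext (by omega)
    rw [h1] at hx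
    exact absurd hx.2 hx.1
  have hN' : N ≠ 0 := by omega
  set Z := Zf A C with hZdef
  have hZ : IsQ A C Z := Zf_isQ hc.le
  have hDAC : D A C = dep A C Z := rfl
  have hne1 : x + 1 ≠ x := add_one_ne hN'
  have hne2 : x - 1 ≠ x := sub_one_ne hN'
  set A' := sortS x A with hA'
  let Z' : Fin (N+1) → ℕ := Function.update Z x (Z (x - 1) + ind A' x - ind C x)
  have hZ'x : Z' x = Z (x - 1) + ind A' x - ind C x := Function.update_self _ _ _
  have hZ'ne : ∀ y, y ≠ x → Z' y = Z y := fun y hy => Function.update_of_ne hy _ _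
  have hzx := hZ x
  have hzx1 := hZ (x + 1)
  rw [add_sub_cancel_right] at hzx1
  have hQ' : IsQ A' C Z' := by
    intro y
    by_cases hy : y = x
    · subst hy
      rw [hZ'x, hZ'ne _ hne2]
    · by_cases hy1 : y = x + 1
      · subst hy1
        rw [add_sub_cancel_right, hZ'x, hZ'ne _ hne1, hzx1, hzx]
        by_cases ha0 : x ∈ A <;> by_cases ha1 : x + 1 ∈ A <;>
          simp only [ind, hA', sortS_left, sortS_right, ha0, ha1, hx.1, hx.2, true_and, and_true,
            false_and, and_false, true_or, or_true, false_or, or_false, if_true, if_false] <;>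
          omega
      · have h3 : y - 1 ≠ x := by
          intro h
          apply hy1
          rw [← h, sub_add_cancel]
        rw [hZ'ne _ hy, hZ'ne _ h3, hA', ind_sort_ne hy hy1]
        exact hZ y
  have hc' : A'.card < C.card := by rw [hA', card_sortS]; exact hc
  rw [D_eq hQ' hc', hDAC]
  ext y
  by_cases hy : y = x
  · subst hy
    rw [mem_dep, mem_dep]
    simp [hx.1]
  · by_cases hy1 : y = x + 1
    · subst hy1
      rw [mem_dep, mem_dep, add_sub_cancel_right, hZ'x, hzx]
      by_cases ha0 : x ∈ A <;> by_cases ha1 : x + 1 ∈ A <;>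
          simp only [ind, hA', sortS_left, sortS_right, ha0, ha1, hx.1, hx.2, true_and, and_true,
            false_and, and_false, true_or, or_true, false_or, or_false, if_true, if_false] <;>
          omega
    · have h3 : y - 1 ≠ x := by
          intro h
          apply hy1
          rw [← h, sub_add_cancel]
      rw [mem_dep, mem_dep, hZ'ne _ h3, hA', ind_sort_ne hy hy1]

/-- as many `10`-edges as `01`-edges -/
lemma card_edges (C : Finset (Fin (N+1))) :
    (univ.filter (fun x => x ∈ C ∧ x + 1 ∉ C)).card =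
      (univ.filter (fun x => x ∉ C ∧ x + 1 ∈ C)).card := by
  classical
  have h1 : (univ.filter (fun x => x ∈ C ∧ x + 1 ∉ C)).card +
      (univ.filter (fun x => x ∈ C ∧ x + 1 ∈ C)).card = C.card := by
    rw [← Finset.card_union_of_disjoint]
    · congr 1
      ext x
      simp only [mem_union, mem_filter, mem_univ, true_and]
      tauto
    · rw [Finset.disjoint_left]
      intro x h1 h2
      simp only [mem_filter, mem_univ, true_and] at h1 h2
      exact h1.2 h2.2
  have h2 : (univ.filter (fun x => x ∉ C ∧ x + 1 ∈ C)).card +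
      (univ.filter (fun x => x ∈ C ∧ x + 1 ∈ C)).card =
      (univ.filter (fun x : Fin (N+1) => x + 1 ∈ C)).card := by
    rw [← Finset.card_union_of_disjoint]
    · congr 1
      ext x
      simp only [mem_union, mem_filter, mem_univ, true_and]
      tauto
    · rw [Finset.disjoint_left]
      intro x h1 h2
      simp only [mem_filter, mem_univ, true_and] at h1 h2
      exact h1.1 h2.1
  have h3 : (univ.filter (fun x : Fin (N+1) => x + 1 ∈ C)).card = C.card := by
    apply Finset.card_bij (fun x _ => x + 1)
    · intro x hx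
      simpa using hx
    · intro x _ y _ h
      exact add_right_cancel h
    · intro y hy
      refine ⟨y - 1, ?_, sub_add_cancel y 1⟩
      simpa using hy
  omega

end Pool.Agent.H409R3.TR
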