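import Pool.Agent.H409R3.Ring2

set_option autoImplicit false
set_option linter.unusedSimpArgs false

namespace Pool.Agent.H409R3.TR

open Finset

/-! ### uniqueness of stationary signed measures -/

lemma pos_closed {S E : Type*} [Fintype S] [Fintype E] (T : E → S → S) (μ : S → ℝ)
    (hst : ∀ h : S → ℝ, ∑ s, μ s * ∑ x, h (T x s) = (Fintype.card E : ℝ) * ∑ s, μ s * h s) :
    ∀ s x, 0 < μ s → 0 < μ (T x s) := by
  classical
  let h : S → ℝ := fun s => if 0 < μ s then 1 else 0
  have hh : ∀ s, h s ≤ 1 := fun s => by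
    show (if 0 < μ s then (1:ℝ) else 0) ≤ 1
    split_ifs <;> norm_num
  have hh0 : ∀ s, 0 ≤ h s := fun s => by
    show 0 ≤ (if 0 < μ s then (1:ℝ) else 0)
    split_ifs <;> norm_num
  have h1 := hst h
  have h2 : ∑ p ∈ (Finset.univ ×ˢ Finset.univ : Finset (S × E)), μ p.1 * h (T p.2 p.1) =
      ∑ p ∈ (Finset.univ ×ˢ Finset.univ : Finset (S × E)), μ p.1 * h p.1 := by
    rw [Finset.sum_product, Finset.sum_product]
    simp only [← Finset.mul_sum, Finset.sum_const, Finset.card_univ, nsmul_eq_mul] at h1 ⊢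
    rw [h1, Finset.mul_sum]
    refine Finset.sum_congr rfl (fun s _ => by ring)
  have h3 : ∀ p ∈ (Finset.univ ×ˢ Finset.univ : Finset (S × E)),
      μ p.1 * h (T p.2 p.1) ≤ μ p.1 * h p.1 := by
    intro p _
    by_cases hp : 0 < μ p.1
    · have : h p.1 = 1 := if_pos hp
      rw [this]
      exact mul_le_mul_of_nonneg_left (hh _) hp.le
    · have : h p.1 = 0 := if_neg hp
      rw [this, mul_zero]
      exact mul_nonpos_of_nonpos_of_nonneg (not_lt.1 hp) (hh0 _)
  have h4 := (Finset.sum_eq_sum_iff_of_le h3).1 h2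
  intro s x hs
  have h5 := h4 (s, x) (by simp)
  have h6 : h s = 1 := if_pos hs
  simp only [h6] at h5
  have h7 : h (T x s) = 1 := mul_left_cancel₀ hs.ne' h5
  by_contra hn
  have h8 : h (T x s) = 0 := if_neg hn
  rw [h8] at h7
  norm_num at h7

lemma uniq {S E : Type*} [Fintype S] [Fintype E] (T : E → S → S) (μ : S → ℝ)
    (hst : ∀ h : S → ℝ, ∑ s, μ s * ∑ x, h (T x s) = (Fintype.card E : ℝ) * ∑ s, μ s * h s)
    (G : S → Prop) (hG : ∀ s, ¬ G s → μ s = 0) (s0 : S)
    (hreach : ∀ P : S → Prop, (∃ s, P s) → (∀ s, P s → G s) → (∀ s x, P s → P (T x s)) → P s0)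
    (hsum : ∑ s, μ s = 0) : ∀ s, μ s = 0 := by
  by_contra hne
  push Not at hne
  obtain ⟨s, hs⟩ := hne
  have hp : 0 < μ s0 := by
    refine hreach (fun s => 0 < μ s) ?_ ?_ (pos_closed T μ hst)
    · obtain ⟨t, _, ht⟩ := Finset.exists_pos_of_sum_zero_of_exists_nonzero μ hsum
        ⟨s, Finset.mem_univ s, hs⟩
      exact ⟨t, ht⟩
    · intro t ht
      by_contra hG'
      rw [hG t hG'] at ht
      exact lt_irrefl _ ht
  have hn : 0 < (fun s => - μ s) s0 := by
    refine hreach (fun s => 0 < (fun s => - μ s) s) ?_ ?_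
      (pos_closed T (fun s => - μ s) ?_)
    · obtain ⟨t, _, ht⟩ := Finset.exists_pos_of_sum_zero_of_exists_nonzero (fun s => - μ s)
        (by rw [Finset.sum_neg_distrib, hsum, neg_zero])
        ⟨s, Finset.mem_univ s, neg_ne_zero.2 hs⟩
      exact ⟨t, ht⟩
    · intro t ht
      by_contra hG'
      simp only [hG t hG', neg_zero, lt_self_iff_false] at ht
    · intro h
      have := hst h
      simp only [neg_mul, Finset.sum_neg_distrib, mul_neg, this]
  simp only at hn
  linarith

/-! ### sorting brings everything to initial segments -/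

variable {N : ℕ}

def wt (A : Finset (Fin (N+1))) : ℕ := ∑ y ∈ A, (N - y.val)

lemma val_add_one {x : Fin (N+1)} (hx : x.val < N) : (x + 1).val = x.val + 1 :=
  Fin.val_add_one_of_lt (by rw [Fin.lt_def]; simpa using hx)

lemma wt_sortS {x : Fin (N+1)} (hx : x.val < N) (A : Finset (Fin (N+1))) :
    wt (sortS x A) = wt A + (if x ∉ A ∧ x + 1 ∈ A then 1 else 0) := by
  classical
  unfold sortS
  split_ifs with h
  · unfold wt
    rw [Finset.sum_map]
    rw [← Finset.add_sum_erase A _ h.2, ← Finset.add_sum_erase A (fun y => N - y.val) h.2]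
    have h1 : ∑ y ∈ A.erase (x+1), (N - ((Equiv.swap x (x+1)).toEmbedding y).val) =
        ∑ y ∈ A.erase (x+1), (N - y.val) := by
      refine Finset.sum_congr rfl (fun y hy => ?_)
      have h2 : y ≠ x + 1 := Finset.ne_of_mem_erase hy
      have h3 : y ≠ x := fun h4 => h.1 (h4 ▸ Finset.mem_of_mem_erase hy)
      simp only [Equiv.coe_toEmbedding]
      rw [Equiv.swap_apply_of_ne_of_ne h3 h2]
    rw [h1]
    simp only [Equiv.coe_toEmbedding, Equiv.swap_apply_right]
    rw [val_add_one hx]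
    omega
  · rfl

lemma init_of (A : Finset (Fin (N+1))) (h : ∀ x : Fin (N+1), x.val < N → ¬ (x ∉ A ∧ x + 1 ∈ A)) :
    A = univ.filter (fun i : Fin (N+1) => i.val < A.card) := by
  have hlow : ∀ d : ℕ, ∀ i j : Fin (N+1), i ∈ A → j.val + d = i.val → j ∈ A := by
    intro d
    induction d with
    | zero =>
      intro i j hi hj
      have : j = i := Fin.ext (by omega)
      rwa [this]
    | succ d ih =>
      intro i j hi hj
      have hjN : j.val < N := by have := i.isLt; omega
      have h1 : (j + 1) ∈ A := ih i (j + 1) hi (by rw [val_add_one hjN]; omega)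
      by_contra hj'
      exact h j hjN ⟨hj', h1⟩
  ext i
  rw [Finset.mem_filter]
  constructor
  · intro hi
    refine ⟨Finset.mem_univ _, ?_⟩
    have h1 : Finset.Iic i ⊆ A := by
      intro j hj
      rw [Finset.mem_Iic, Fin.le_def] at hj
      exact hlow (i.val - j.val) i j hi (by omega)
    have h2 := Finset.card_le_card h1
    rw [Fin.card_Iic] at h2
    omega
  · rintro ⟨_, hi⟩
    by_contra hiA
    have h1 : A ⊆ Finset.Iio i := by
      intro j hj
      rw [Finset.mem_Iio, Fin.lt_def]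
      by_contra hle
      exact hiA (hlow (j.val - i.val) j i hj (by omega))
    have h2 := Finset.card_le_card h1
    rw [Fin.card_Iio] at h2
    omega

/-- tuples of sets -/
abbrev St (N m : ℕ) := (Fin m → Finset (Fin (N+1))) × Finset (Fin (N+1))

/-- simultaneous sorting -/
def Tm {m : ℕ} (x : Fin (N+1)) (s : St N m) : St N m := (fun j => sortS x (s.1 j), sortS x s.2)

def seg (N t : ℕ) : Finset (Fin (N+1)) := univ.filter (fun i : Fin (N+1) => i.val < t)

lemma reach {m : ℕ} (c : ℕ) (P : St N m → Prop) (hne : ∃ s, P s)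
    (hG : ∀ s, P s → (∀ j, (s.1 j).card = j.val + 1) ∧ s.2.card = c)
    (hcl : ∀ s x, P s → P (Tm x s)) :
    P (fun j => seg N (j.val + 1), seg N c) := by
  classical
  let ψ : St N m → ℕ := fun s => ∑ j, wt (s.1 j) + wt s.2
  obtain ⟨s1, hs1⟩ := hne
  obtain ⟨s, hs, hmax⟩ := Finset.exists_max_image (univ.filter P) ψ
    ⟨s1, by simpa using hs1⟩
  have hPs : P s := (Finset.mem_filter.1 hs).2
  have hfix : ∀ x : Fin (N+1), x.val < N →
      (∀ j, ¬ (x ∉ s.1 j ∧ x + 1 ∈ s.1 j)) ∧ ¬ (x ∉ s.2 ∧ x + 1 ∈ s.2) := by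
    intro x hx
    have h1 := hmax (Tm x s) (by simpa using hcl s x hPs)
    have h2 : ψ (Tm x s) = ∑ j, wt (sortS x (s.1 j)) + wt (sortS x s.2) := rfl
    have h3 : ψ s = ∑ j, wt (s.1 j) + wt s.2 := rfl
    rw [h2, h3, wt_sortS hx] at h1
    have h4 : ∑ j, wt (sortS x (s.1 j)) =
        ∑ j, wt (s.1 j) + ∑ j, (if x ∉ s.1 j ∧ x + 1 ∈ s.1 j then 1 else 0) := by
      rw [← Finset.sum_add_distrib]
      exact Finset.sum_congr rfl (fun j _ => wt_sortS hx _)
    rw [h4] at h1
    constructor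
    · intro j hj
      have h5 : 1 ≤ ∑ j, (if x ∉ s.1 j ∧ x + 1 ∈ s.1 j then 1 else 0) := by
        calc 1 = (if x ∉ s.1 j ∧ x + 1 ∈ s.1 j then 1 else 0) := by rw [if_pos hj]
          _ ≤ _ := Finset.single_le_sum (f := fun j => if x ∉ s.1 j ∧ x + 1 ∈ s.1 j then 1 else 0)
            (fun _ _ => Nat.zero_le _) (Finset.mem_univ j)
      omega
    · intro hj
      rw [if_pos hj] at h1
      omega
  have h1 := hG s hPs
  have h2 : s = (fun j => seg N (j.val + 1), seg N c) := by
    apply Prod.ext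
    · funext j
      have := init_of (s.1 j) (fun x hx => (hfix x hx).1 j)
      rw [this, h1.1 j]
      rfl
    · have := init_of s.2 (fun x hx => (hfix x hx).2)
      rw [this, h1.2]
      rfl
  rw [← h2]
  exact hPs

end Pool.Agent.H409R3.TR
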