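import Pool.Agent.H409R3.Ring3

set_option autoImplicit false
set_option linter.unusedSimpArgs false

namespace Pool.Agent.H409R3.TR

open Finset

variable {N : ℕ}

/-- the move of a permutation across the edge `(x,x+1)` -/
def TP (x : Fin (N+1)) (σ : Equiv.Perm (Fin (N+1))) : Equiv.Perm (Fin (N+1)) :=
  if σ (x + 1) < σ x then σ * Equiv.swap x (x + 1) else σ

def thr (t : ℕ) (σ : Equiv.Perm (Fin (N+1))) : Finset (Fin (N+1)) :=
  univ.filter (fun x => (σ x).val < t)

lemma mem_thr {t : ℕ} {σ : Equiv.Perm (Fin (N+1))} {x : Fin (N+1)} :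
    x ∈ thr t σ ↔ (σ x).val < t := by simp [thr]

lemma thr_TP (t : ℕ) (x : Fin (N+1)) (σ : Equiv.Perm (Fin (N+1))) :
    thr t (TP x σ) = sortS x (thr t σ) := by
  ext y
  unfold TP sortS
  simp only [mem_thr]
  split_ifs with h1 h2 h2
  · rw [mem_swap_map, mem_thr]
    rfl
  · rw [mem_thr, Equiv.Perm.mul_apply]
    rw [Fin.lt_def] at h1
    by_cases hy : y = x
    · subst hy
      rw [Equiv.swap_apply_left]
      constructor
      · intro h3
        by_contra h4
        exact h2 ⟨h4, h3⟩
      · intro h3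
        omega
    · by_cases hy1 : y = x + 1
      · subst hy1
        rw [Equiv.swap_apply_right]
        constructor
        · intro h3
          omega
        · intro h3
          by_contra h4
          exact h2 ⟨h4, h3⟩
      · rw [Equiv.swap_apply_of_ne_of_ne hy hy1]
  · rw [mem_swap_map, mem_thr]
    exfalso
    rw [Fin.lt_def] at h1
    omega
  · rw [mem_thr]

lemma card_thr {t : ℕ} (ht : t ≤ N + 1) (σ : Equiv.Perm (Fin (N+1))) : (thr t σ).card = t := by
  have h1 : thr t σ = (univ.filter (fun i : Fin (N+1) => i.val < t)).map σ.symm.toEmbedding := by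
    ext y
    rw [mem_thr, Finset.mem_map_equiv]
    simp
  rw [h1, Finset.card_map]
  rcases Nat.eq_or_lt_of_le ht with h | h
  · subst h
    rw [Finset.filter_true_of_mem (fun i _ => i.isLt)]
    simp
  · have : (univ.filter (fun i : Fin (N+1) => i.val < t)) = Finset.Iio (⟨t, h⟩ : Fin (N+1)) := by
      ext i
      simp [Fin.lt_def]
    rw [this, Fin.card_Iio]

/-- the state produced by the queue -/
noncomputable def QS (m : ℕ) (σ : Equiv.Perm (Fin (N+1))) (C : Finset (Fin (N+1))) : St N m :=
  (fun j => D (thr (j.val + 1) σ) C, C)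

lemma Tm_QS_of_not10 {m c : ℕ} (hm : m < c) (hc : c ≤ N + 1) {C : Finset (Fin (N+1))}
    (hC : C.card = c) {x : Fin (N+1)} (hx : ¬ (x ∈ C ∧ x + 1 ∉ C)) (σ : Equiv.Perm (Fin (N+1))) :
    Tm x (QS m σ C) = QS m (TP x σ) (sortS x C) := by
  unfold Tm QS
  apply Prod.ext
  · funext j
    simp only
    rw [thr_TP, E1 _ hx]
    rw [card_thr (by have := j.isLt; omega), hC]
    have := j.isLt
    omega
  · rfl

lemma Tm_QS_of_10 {m : ℕ} {C : Finset (Fin (N+1))}
    {x : Fin (N+1)} (hx : x ∈ C ∧ x + 1 ∉ C) (σ : Equiv.Perm (Fin (N+1))) :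
    Tm x (QS m σ C) = QS m σ C := by
  unfold Tm QS
  apply Prod.ext
  · funext j
    simp only
    exact (E2 hx).1
  · exact (E2 (A := ∅) hx).2

lemma QS_of_01 {m c : ℕ} (hm : m < c) (hc : c ≤ N + 1) {C : Finset (Fin (N+1))}
    (hC : C.card = c) {x : Fin (N+1)} (hx : x ∉ C ∧ x + 1 ∈ C) (σ : Equiv.Perm (Fin (N+1))) :
    QS m (TP x σ) C = QS m σ C := by
  unfold QS
  apply Prod.ext
  · funext j
    simp only
    rw [thr_TP, E3 _ hx]
    rw [card_thr (by have := j.isLt; omega), hC]
    have := j.isLt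
    omega
  · rfl

lemma swap_sum (c : ℕ) (x : Fin (N+1)) (F : Finset (Fin (N+1)) → ℝ) :
    ∑ C ∈ (powersetCard c univ).filter (fun C => ¬ (x ∈ C ∧ x + 1 ∉ C)), F (sortS x C) +
      ∑ C ∈ (powersetCard c univ).filter (fun C => x ∉ C ∧ x + 1 ∈ C), F C =
    ∑ C ∈ powersetCard c univ, F C := by
  classical
  have h1 : (powersetCard c univ).filter (fun C : Finset (Fin (N+1)) => ¬ (x ∈ C ∧ x + 1 ∉ C)) =
      (powersetCard c univ).filter (fun C => x ∉ C ∧ x + 1 ∈ C) ∪
      (powersetCard c univ).filter (fun C => (x ∈ C ↔ x + 1 ∈ C)) := by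
    ext C
    simp only [mem_filter, mem_union]
    tauto
  have h2 : powersetCard c univ =
      (powersetCard c univ).filter (fun C : Finset (Fin (N+1)) => x ∈ C ∧ x + 1 ∉ C) ∪
      (powersetCard c univ).filter (fun C => x ∉ C ∧ x + 1 ∈ C) ∪
      (powersetCard c univ).filter (fun C => (x ∈ C ↔ x + 1 ∈ C)) := by
    ext C
    simp only [mem_filter, mem_union]
    tauto
  rw [h1, sum_union]
  swap
  · rw [Finset.disjoint_left]
    intro C hC hC'
    simp only [mem_filter] at hC hC'
    tauto
  have h3 : ∑ C ∈ (powersetCard c univ).filter (fun C => (x ∈ C ↔ x + 1 ∈ C)), F (sortS x C) =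
      ∑ C ∈ (powersetCard c univ).filter (fun C => (x ∈ C ↔ x + 1 ∈ C)), F C := by
    refine sum_congr rfl (fun C hC => ?_)
    have h4 := (mem_filter.1 hC).2
    unfold sortS
    rw [if_neg (by tauto)]
  have h5 : ∑ C ∈ (powersetCard c univ).filter (fun C => x ∉ C ∧ x + 1 ∈ C), F (sortS x C) =
      ∑ C ∈ (powersetCard c univ).filter (fun C => x ∈ C ∧ x + 1 ∉ C), F C := by
    refine sum_bij (fun C _ => C.map (Equiv.swap x (x + 1)).toEmbedding) ?_ ?_ ?_ ?_
    · intro C hC
      simp only [mem_filter, mem_powersetCard, subset_univ, true_and, card_map, mem_swap_map,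
        Equiv.swap_apply_left, Equiv.swap_apply_right] at hC ⊢
      tauto
    · intro C _ C' _ h
      exact Finset.map_injective _ h
    · intro C hC
      refine ⟨C.map (Equiv.swap x (x + 1)).toEmbedding, ?_, ?_⟩
      · simp only [mem_filter, mem_powersetCard, subset_univ, true_and, card_map, mem_swap_map,
          Equiv.swap_apply_left, Equiv.swap_apply_right] at hC ⊢
        tauto
      · ext y
        rw [mem_swap_map, mem_swap_map, Equiv.swap_apply_self]
    · intro C hC
      have h4 := (mem_filter.1 hC).2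
      unfold sortS
      rw [if_pos h4]
  rw [h3, h5]
  conv_rhs => rw [h2]
  rw [sum_union, sum_union]
  · ring
  · rw [Finset.disjoint_left]
    intro C hC hC'
    simp only [mem_filter] at hC hC'
    tauto
  · rw [Finset.disjoint_left]
    intro C hC hC'
    simp only [mem_filter, mem_union] at hC hC'
    tauto

/-- one step of the multiline dynamics, summed over service sets -/
lemma step {m c : ℕ} (hm : m < c) (hc : c ≤ N + 1) (h : St N m → ℝ)
    (σ : Equiv.Perm (Fin (N+1))) :
    ∑ C ∈ powersetCard c univ, ∑ x, h (Tm x (QS m σ C)) =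
      ∑ C ∈ powersetCard c univ, ∑ x, h (QS m (TP x σ) C) := by
  classical
  have h1 : ∀ C ∈ powersetCard c (univ : Finset (Fin (N+1))), ∑ x, h (Tm x (QS m σ C)) =
      ∑ x, ((if ¬ (x ∈ C ∧ x + 1 ∉ C) then h (QS m (TP x σ) (sortS x C)) else 0) +
        (if x ∉ C ∧ x + 1 ∈ C then h (QS m (TP x σ) C) else 0)) := by
    intro C hC
    have hC' : C.card = c := (mem_powersetCard.1 hC).2
    rw [Finset.sum_add_distrib]
    have h2 : ∑ x, (if x ∉ C ∧ x + 1 ∈ C then h (QS m (TP x σ) C) else 0) =
        ∑ x, (if x ∈ C ∧ x + 1 ∉ C then h (QS m σ C) else 0) := by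
      have h3 : ∑ x, (if x ∉ C ∧ x + 1 ∈ C then h (QS m (TP x σ) C) else 0) =
          ∑ x, (if x ∉ C ∧ x + 1 ∈ C then h (QS m σ C) else 0) := by
        refine sum_congr rfl (fun x _ => ?_)
        split_ifs with hx
        · rw [QS_of_01 hm hc hC' hx]
        · rfl
      rw [h3, ← Finset.sum_filter, ← Finset.sum_filter, sum_const, sum_const, card_edges]
    rw [h2, ← Finset.sum_add_distrib]
    refine sum_congr rfl (fun x _ => ?_)
    by_cases hx : x ∈ C ∧ x + 1 ∉ C
    · rw [Tm_QS_of_10 hx, if_neg (not_not.2 hx), if_pos hx, zero_add]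
    · rw [Tm_QS_of_not10 hm hc hC' hx, if_pos hx, if_neg hx, add_zero]
  rw [sum_congr rfl h1, sum_comm]
  conv_rhs => rw [sum_comm]
  refine sum_congr rfl (fun x _ => ?_)
  rw [Finset.sum_add_distrib, ← Finset.sum_filter, ← Finset.sum_filter]
  exact swap_sum c x (fun C => h (QS m (TP x σ) C))

lemma sum_single {S : Type*} [Fintype S] [DecidableEq S] (a : S) (f : S → ℝ) :
    ∑ s, (if a = s then (1:ℝ) else 0) * f s = f a := by
  simp

/-- The joint law of departures and services equals the projected stationary law. -/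
theorem law_eq {m c : ℕ} (hm : m < c) (hc : c ≤ N + 1) (π : Equiv.Perm (Fin (N+1)) → ℝ)
    (hπ : ∀ g : Equiv.Perm (Fin (N+1)) → ℝ,
      ∑ σ, π σ * ∑ x, g (TP x σ) = ((N : ℝ) + 1) * ∑ σ, π σ * g σ)
    (h : St N m → ℝ) :
    ∑ C ∈ powersetCard c univ, ∑ σ, π σ * h (QS m σ C) =
      ((N+1).choose c : ℝ) * ∑ σ, π σ * h (fun j => thr (j.val + 1) σ, thr c σ) := by
  classical
  let L : (St N m → ℝ) → ℝ := fun h => ∑ C ∈ powersetCard c univ, ∑ σ, π σ * h (QS m σ C)
  let pr : Equiv.Perm (Fin (N+1)) → St N m := fun σ => (fun j => thr (j.val + 1) σ, thr c σ)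
  let L' : (St N m → ℝ) → ℝ := fun h => ∑ σ, π σ * h (pr σ)
  let b : ℝ := ((N+1).choose c : ℝ)
  let μ : St N m → ℝ := fun s =>
    L (fun t => if t = s then 1 else 0) - b * L' (fun t => if t = s then 1 else 0)
  have hμ : ∀ f : St N m → ℝ, ∑ s, μ s * f s = L f - b * L' f := by
    intro f
    have e1 : ∑ s, L (fun t => if t = s then 1 else 0) * f s = L f := by
      show ∑ s, (∑ C ∈ powersetCard c univ, ∑ σ, π σ * (if QS m σ C = s then 1 else 0)) * f s =
        ∑ C ∈ powersetCard c univ, ∑ σ, π σ * f (QS m σ C)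
      simp only [Finset.sum_mul]
      rw [Finset.sum_comm]
      refine sum_congr rfl (fun C _ => ?_)
      rw [Finset.sum_comm]
      refine sum_congr rfl (fun σ _ => ?_)
      simp only [mul_assoc, ← Finset.mul_sum]
      rw [sum_single]
    have e2 : ∑ s, L' (fun t => if t = s then 1 else 0) * f s = L' f := by
      show ∑ s, (∑ σ, π σ * (if pr σ = s then 1 else 0)) * f s = ∑ σ, π σ * f (pr σ)
      simp only [Finset.sum_mul]
      rw [Finset.sum_comm]
      refine sum_congr rfl (fun σ _ => ?_)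
      simp only [mul_assoc, ← Finset.mul_sum]
      rw [sum_single]
    calc ∑ s, μ s * f s = ∑ s, L (fun t => if t = s then 1 else 0) * f s -
        b * ∑ s, L' (fun t => if t = s then 1 else 0) * f s := by
          rw [Finset.mul_sum, ← Finset.sum_sub_distrib]
          refine sum_congr rfl (fun s _ => ?_)
          show (L (fun t => if t = s then 1 else 0) -
            b * L' (fun t => if t = s then 1 else 0)) * f s = _
          ring
      _ = _ := by rw [e1, e2]
  -- stationarity of both parts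
  have hL : ∀ f : St N m → ℝ, L (fun s => ∑ x, f (Tm x s)) = ((N : ℝ) + 1) * L f := by
    intro f
    show ∑ C ∈ powersetCard c univ, ∑ σ, π σ * ∑ x, f (Tm x (QS m σ C)) =
      ((N : ℝ) + 1) * ∑ C ∈ powersetCard c univ, ∑ σ, π σ * f (QS m σ C)
    rw [sum_comm]
    have e1 : ∀ σ ∈ (univ : Finset (Equiv.Perm (Fin (N+1)))),
        ∑ C ∈ powersetCard c univ, π σ * ∑ x, f (Tm x (QS m σ C)) =
        ∑ C ∈ powersetCard c univ, π σ * ∑ x, f (QS m (TP x σ) C) := by
      intro σ _
      rw [← Finset.mul_sum, ← Finset.mul_sum, step hm hc f σ]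
    rw [sum_congr rfl e1, sum_comm, Finset.mul_sum]
    refine sum_congr rfl (fun C _ => ?_)
    exact hπ (fun σ => f (QS m σ C))
  have hL' : ∀ f : St N m → ℝ, L' (fun s => ∑ x, f (Tm x s)) = ((N : ℝ) + 1) * L' f := by
    intro f
    show ∑ σ, π σ * ∑ x, f (Tm x (pr σ)) = ((N : ℝ) + 1) * ∑ σ, π σ * f (pr σ)
    rw [← hπ (fun σ => f (pr σ))]
    refine sum_congr rfl (fun σ _ => ?_)
    congr 1
    refine sum_congr rfl (fun x _ => ?_)
    congr 1
    show ((fun j => sortS x (thr (j.val + 1) σ), sortS x (thr c σ)) : St N m) =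
      (fun j => thr (j.val + 1) (TP x σ), thr c (TP x σ))
    simp only [thr_TP]
  have hzero : ∀ s, μ s = 0 := by
    refine uniq (E := Fin (N+1)) (fun x s => Tm x s) μ ?_
      (fun s => (∀ j, (s.1 j).card = j.val + 1) ∧ s.2.card = c) ?_
      (fun j => seg N (j.val + 1), seg N c) (fun P h1 h2 h3 => reach c P h1 h2 h3) ?_
    · intro f
      rw [hμ, hμ, hL, hL', Fintype.card_fin]
      push_cast
      ring
    · intro s hs
      have e1 : ∀ C ∈ powersetCard c (univ : Finset (Fin (N+1))), ∀ σ, QS m σ C ≠ s := by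
        intro C hC σ h1
        apply hs
        rw [← h1]
        have hC' : C.card = c := (mem_powersetCard.1 hC).2
        refine ⟨fun j => ?_, hC'⟩
        have hj := j.isLt
        show (D (thr (j.val + 1) σ) C).card = _
        rw [card_D, card_thr (by omega)]
        rw [card_thr (by omega), hC']
        omega
      have e2 : ∀ σ, pr σ ≠ s := by
        intro σ h1
        apply hs
        rw [← h1]
        refine ⟨fun j => ?_, ?_⟩
        · have hj := j.isLt
          exact card_thr (by omega) σ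
        · exact card_thr hc σ
      show (∑ C ∈ powersetCard c univ, ∑ σ, π σ * (if QS m σ C = s then 1 else 0)) -
        b * (∑ σ, π σ * (if pr σ = s then 1 else 0)) = 0
      rw [Finset.sum_eq_zero, Finset.sum_eq_zero]
      · ring
      · intro σ _
        rw [if_neg (e2 σ), mul_zero]
      · intro C hC
        refine Finset.sum_eq_zero (fun σ _ => ?_)
        rw [if_neg (e1 C hC σ), mul_zero]
    · have := hμ (fun _ => 1)
      simp only [mul_one] at this
      rw [this]
      show (∑ C ∈ powersetCard c univ, ∑ σ, π σ * 1) - b * (∑ σ, π σ * 1) = 0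
      rw [sum_const, card_powersetCard, card_univ, Fintype.card_fin, nsmul_eq_mul]
      ring
  have := hμ h
  simp only [hzero, zero_mul, sum_const_zero] at this
  show L h = b * L' h
  linarith

end Pool.Agent.H409R3.TR
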