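import Pool.Agent.H409R3.Ring4

set_option autoImplicit false
set_option linter.unusedSimpArgs false

namespace Pool.Agent.H409R3.TR

open Finset

variable {N : ℕ}

/-- Deleting the service at `r` does not change the departures at the sites `< r` as soon as
some site beyond `r` has an empty queue in both systems. -/
lemma agree {A C : Finset (Fin (N+1))} {r z : Fin (N+1)} (hc : A.card < C.card)
    (hc' : A.card < (C.erase r).card) (hz : r.val < z.val)
    (h1 : Zf A C z = 0) (h2 : Zf A (C.erase r) z = 0) (x : Fin (N+1)) (hx : x.val < r.val) :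
    x ∈ D A C ↔ x ∈ D A (C.erase r) := by
  classical
  have hQ := Zf_isQ hc.le
  have hQ' := Zf_isQ hc'.le
  have key : ∀ y : Fin (N+1), (y.val < r.val ∨ z.val ≤ y.val) →
      Zf A C y = Zf A (C.erase r) y := by
    refine around _ z (fun _ => by rw [h1, h2]) ?_
    intro y ih hy
    by_cases hy' : y.val < r.val ∨ z.val ≤ y.val
    · have h3 := ih hy'
      have hne : y + 1 ≠ r := by
        intro h
        rw [h] at hy
        omega
      have h4 := hQ (y + 1)
      have h5 := hQ' (y + 1)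
      rw [add_sub_cancel_right] at h4 h5
      have h6 : ind (C.erase r) (y + 1) = ind C (y + 1) := by
        unfold ind
        simp [hne]
      rw [h6] at h5
      rw [h4, h5, h3]
    · have h3 : y.val < N := by
        have := z.isLt
        omega
      have h4 := val_add_one h3
      have h5 : y + 1 = z := Fin.ext (by omega)
      rw [h5, h1, h2]
  have hreg : (x - 1).val < r.val ∨ z.val ≤ (x - 1).val := by
    have := sub_one_val x
    have h3 := z.isLt
    split_ifs at this <;> omega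
  have h3 := key (x - 1) hreg
  unfold D
  rw [mem_dep, mem_dep, h3, Finset.mem_erase]
  have hne : x ≠ r := by
    intro h
    rw [h] at hx
    omega
  tauto

lemma thr_mono {s t : ℕ} (h : s ≤ t) (σ : Equiv.Perm (Fin (N+1))) : thr s σ ⊆ thr t σ := by
  intro x hx
  rw [mem_thr] at hx ⊢
  omega

lemma Zf_le {A B C C' : Finset (Fin (N+1))} (hA : A ⊆ B) (hC : C' ⊆ C) (h1 : A.card < C.card)
    (h2 : B.card < C'.card) (x : Fin (N+1)) : Zf A C x ≤ Zf B C' x := by
  obtain ⟨z, _, _, _, hz, _⟩ := exists_unused (Zf_isQ h1.le) h1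
  exact comp (Zf_isQ h1.le) (Zf_isQ h2.le) hA hC z (by omega) x

lemma wave {m : ℕ} {σ : Equiv.Perm (Fin (N+1))} {C : Finset (Fin (N+1))} {r : Fin (N+1)}
    (hmc : m + 1 < C.card) (hr : r ∈ C) (hm : m ≤ N + 1)
    (hcov : (∀ x : Fin (N+1), x.val < r.val → x ∈ D (thr m σ) C) ∨
      (∀ x : Fin (N+1), x.val < r.val → x ∈ D (thr m σ) (C.erase r)))
    (j : ℕ) (hj : j < m) (x : Fin (N+1)) (hx : x.val < r.val) :
    x ∈ D (thr (j+1) σ) C ↔ x ∈ D (thr (j+1) σ) (C.erase r) := by
  classical
  have hcard' : (C.erase r).card = C.card - 1 := Finset.card_erase_of_mem hr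
  have hA : (thr m σ).card = m := card_thr hm σ
  have hAj : (thr (j+1) σ).card = j + 1 := card_thr (by omega) σ
  have hlt : (thr m σ).card < (C.erase r).card := by omega
  have hQ' := Zf_isQ hlt.le
  obtain ⟨z, hz1, hz2, hz3, hz4, hz5⟩ := exists_unused hQ' hlt
  have hle1 : Zf (thr m σ) C (z - 1) ≤ Zf (thr m σ) (C.erase r) (z - 1) :=
    Zf_le (Finset.Subset.refl _) (Finset.erase_subset _ _) (by omega) hlt _
  have hzr : z ≠ r := Finset.ne_of_mem_erase hz1
  have hrz : r.val < z.val := by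
    by_contra hcon
    have hzlt : z.val < r.val := by
      have : z.val ≠ r.val := fun h => hzr (Fin.ext h)
      omega
    rcases hcov with h | h
    · have h3 := h z hzlt
      unfold D at h3
      rw [mem_dep] at h3
      have h4 : ind (thr m σ) z = 0 := ind_neg hz3
      omega
    · exact hz5 (h z hzlt)
  have hsub : thr (j+1) σ ⊆ thr m σ := thr_mono (by omega) σ
  have h5 : Zf (thr (j+1) σ) (C.erase r) z = 0 := by
    have := Zf_le hsub (Finset.Subset.refl (C.erase r)) (by omega) hlt z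
    omega
  have h6 : Zf (thr (j+1) σ) C z = 0 := by
    have := Zf_le (Finset.Subset.refl (thr (j+1) σ)) (Finset.erase_subset r C) (by omega)
      (by omega) z
    omega
  exact agree (by omega) (by omega) hrz h6 h5 x hx

/-- the event that the first `r` sites carry the letters `I` -/
def Ev {m r : ℕ} (hr : r ≤ N + 1) (I : Fin r → ℕ) (F : Fin m → Finset (Fin (N+1))) : Prop :=
  ∀ a : Fin r, ∀ j : Fin m, (Fin.castLE hr a ∈ F j ↔ I a ≤ j.val)

lemma Ev_erase {m r : ℕ} (hr : r < N + 1) (I : Fin r → ℕ) (hI : ∀ a, I a < m)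
    {σ : Equiv.Perm (Fin (N+1))} {C : Finset (Fin (N+1))}
    (hmc : m + 1 < C.card) (hrC : (⟨r, hr⟩ : Fin (N+1)) ∈ C) :
    Ev hr.le I (QS m σ C).1 ↔ Ev hr.le I (QS m σ (C.erase ⟨r, hr⟩)).1 := by
  classical
  have hCle : C.card ≤ N + 1 := by
    have := Finset.card_le_univ C
    simpa using this
  have hcov : ∀ C' : Finset (Fin (N+1)), Ev hr.le I (QS m σ C').1 →
      ∀ x : Fin (N+1), x.val < r → x ∈ D (thr m σ) C' := by
    intro C' h x hx
    have hm : 0 < m := lt_of_le_of_lt (Nat.zero_le _) (hI ⟨x.val, hx⟩)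
    have h1 := h ⟨x.val, hx⟩ ⟨m - 1, by omega⟩
    have h2 : (QS m σ C').1 ⟨m - 1, by omega⟩ = D (thr m σ) C' := by
      show D (thr (m - 1 + 1) σ) C' = _
      rw [Nat.sub_add_cancel hm]
    have h3 : Fin.castLE hr.le ⟨x.val, hx⟩ = x := rfl
    rw [h2, h3] at h1
    apply h1.2
    have := hI ⟨x.val, hx⟩
    show I ⟨x.val, hx⟩ ≤ m - 1
    omega
  have hcast : ∀ a : Fin r, (Fin.castLE hr.le a : Fin (N+1)).val < r := fun a => a.isLt
  constructor
  · intro h a j
    rw [← h a j]
    exact (wave (r := ⟨r, hr⟩) hmc hrC (by omega) (Or.inl (fun x hx => hcov C h x hx)) j.val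
      j.isLt _ (hcast a)).symm
  · intro h a j
    rw [← h a j]
    exact wave (r := ⟨r, hr⟩) hmc hrC (by omega) (Or.inr (fun x hx => hcov _ h x hx)) j.val
      j.isLt _ (hcast a)

lemma Ev_thr {m r : ℕ} (hr : r ≤ N + 1) (I : Fin r → ℕ) (hI : ∀ a, I a < m)
    (σ : Equiv.Perm (Fin (N+1))) :
    Ev hr I (fun j : Fin m => thr (j.val + 1) σ) ↔ ∀ a, (σ (Fin.castLE hr a)).val = I a := by
  constructor
  · intro h a
    have h1 := h a ⟨I a, hI a⟩
    rw [mem_thr] at h1
    have h2 : (σ (Fin.castLE hr a)).val < I a + 1 := h1.2 (le_refl _)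
    by_contra hne
    have h3 : (σ (Fin.castLE hr a)).val < I a := by omega
    have h4 := h a ⟨I a - 1, by have := hI a; omega⟩
    rw [mem_thr] at h4
    have h5 := h4.1 (by show _ < I a - 1 + 1; omega)
    simp only at h5
    omega
  · intro h a j
    rw [mem_thr, h a]
    omega

section count
open Classical

variable {m r : ℕ} (hr : r < N + 1) (I : Fin r → ℕ) (hI : ∀ a, I a < m)
  (π : Equiv.Perm (Fin (N+1)) → ℝ)

/-- mass of the event under the service set `C` -/
noncomputable def EC (m : ℕ) {r : ℕ} (hr : r < N + 1) (I : Fin r → ℕ)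
    (π : Equiv.Perm (Fin (N+1)) → ℝ) (C : Finset (Fin (N+1))) : ℝ :=
  ∑ σ, π σ * (if Ev hr.le I (QS m σ C).1 then 1 else 0)

noncomputable def pI {r : ℕ} (hr : r < N + 1) (I : Fin r → ℕ)
    (π : Equiv.Perm (Fin (N+1)) → ℝ) : ℝ :=
  ∑ σ, π σ * (if ∀ a, (σ (Fin.castLE hr.le a)).val = I a then 1 else 0)

include hI in
lemma EC_total (hπ : ∀ g : Equiv.Perm (Fin (N+1)) → ℝ,
      ∑ σ, π σ * ∑ x, g (TP x σ) = ((N : ℝ) + 1) * ∑ σ, π σ * g σ) {c : ℕ} (hm : m < c)
      (hc : c ≤ N + 1) :
    ∑ C ∈ powersetCard c univ, EC m hr I π C = ((N+1).choose c : ℝ) * pI hr I π := by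
  have h1 := law_eq hm hc π hπ (fun s => if Ev hr.le I s.1 then 1 else 0)
  unfold EC pI
  rw [h1]
  congr 1
  refine sum_congr rfl (fun σ _ => ?_)
  simp only [Ev_thr hr.le I hI σ]

include hI in
lemma EC_erase {C : Finset (Fin (N+1))} (hmc : m + 1 < C.card)
    (hrC : (⟨r, hr⟩ : Fin (N+1)) ∈ C) :
    EC m hr I π C = EC m hr I π (C.erase ⟨r, hr⟩) := by
  unfold EC
  refine sum_congr rfl (fun σ _ => ?_)
  rw [Ev_erase hr I hI hmc hrC]

include hI in
lemma EC_notMem (hπ : ∀ g : Equiv.Perm (Fin (N+1)) → ℝ,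
      ∑ σ, π σ * ∑ x, g (TP x σ) = ((N : ℝ) + 1) * ∑ σ, π σ * g σ) (d : ℕ) :
    ∀ c : ℕ, m < c → c + d = N + 1 →
    ∑ C ∈ (powersetCard c univ).filter (fun C => (⟨r, hr⟩ : Fin (N+1)) ∉ C), EC m hr I π C =
      (N.choose c : ℝ) * pI hr I π := by
  induction d with
  | zero =>
    intro c _ hc
    have hc' : c = N + 1 := by omega
    subst hc'
    rw [Nat.choose_succ_self, Nat.cast_zero, zero_mul]
    apply Finset.sum_eq_zero
    intro C hC
    exfalso
    rw [mem_filter, mem_powersetCard] at hC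
    have : C = univ := by
      apply Finset.eq_univ_of_card
      rw [hC.1.2, Fintype.card_fin]
    exact hC.2 (this ▸ mem_univ _)
  | succ d ih =>
    intro c hm hc
    have h1 := ih (c + 1) (by omega) (by omega)
    have h2 := EC_total hr I hI π hπ (c := c + 1) (by omega) (by omega)
    have h3 : ∑ C ∈ (powersetCard (c+1) univ).filter (fun C => (⟨r, hr⟩ : Fin (N+1)) ∈ C),
        EC m hr I π C =
        ∑ C ∈ (powersetCard c univ).filter (fun C => (⟨r, hr⟩ : Fin (N+1)) ∉ C),
          EC m hr I π C := by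
      refine sum_bij (fun C _ => C.erase ⟨r, hr⟩) ?_ ?_ ?_ ?_
      · intro C hC
        simp only [mem_filter, mem_powersetCard, subset_univ, true_and] at hC ⊢
        refine ⟨?_, Finset.notMem_erase _ _⟩
        rw [Finset.card_erase_of_mem hC.2, hC.1]
        rfl
      · intro C hC C' hC' h
        simp only [mem_filter] at hC hC'
        rw [← Finset.insert_erase hC.2, ← Finset.insert_erase hC'.2, h]
      · intro C hC
        simp only [mem_filter, mem_powersetCard, subset_univ, true_and] at hC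
        refine ⟨insert ⟨r, hr⟩ C, ?_, Finset.erase_insert hC.2⟩
        simp only [mem_filter, mem_powersetCard, subset_univ, true_and]
        refine ⟨?_, Finset.mem_insert_self _ _⟩
        rw [Finset.card_insert_of_notMem hC.2, hC.1]
      · intro C hC
        simp only [mem_filter, mem_powersetCard, subset_univ, true_and] at hC
        exact EC_erase hr I hI π (by omega) hC.2
    have h4 := Finset.sum_filter_add_sum_filter_not (powersetCard (c+1) univ)
      (fun C => (⟨r, hr⟩ : Fin (N+1)) ∈ C) (EC m hr I π)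
    rw [h3, h1, h2] at h4
    have h5 : ((N+1).choose (c+1) : ℝ) = (N.choose c : ℝ) + (N.choose (c+1) : ℝ) := by
      rw [Nat.choose_succ_succ]
      push_cast
      ring
    rw [h5] at h4
    linarith

include hI in
/-- the threshold form of the conjecture -/
theorem threshold (hπ : ∀ g : Equiv.Perm (Fin (N+1)) → ℝ,
      ∑ σ, π σ * ∑ x, g (TP x σ) = ((N : ℝ) + 1) * ∑ σ, π σ * g σ) {c : ℕ} (hm : m < c)
      (hc : c ≤ N + 1) :
    ∑ σ, π σ * (if (∀ a, (σ (Fin.castLE hr.le a)).val = I a) ∧ c ≤ (σ ⟨r, hr⟩).val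
      then 1 else 0) = (((N:ℝ) + 1 - c) / ((N:ℝ) + 1)) * pI hr I π := by
  have h1 := law_eq hm hc π hπ
    (fun s => if Ev hr.le I s.1 ∧ (⟨r, hr⟩ : Fin (N+1)) ∉ s.2 then 1 else 0)
  have h2 := EC_notMem hr I hI π hπ (N + 1 - c) c hm (by omega)
  have h3 : ∑ C ∈ powersetCard c univ, ∑ σ, π σ *
      (if Ev hr.le I (QS m σ C).1 ∧ (⟨r, hr⟩ : Fin (N+1)) ∉ (QS m σ C).2 then (1:ℝ) else 0) =
      ∑ C ∈ (powersetCard c univ).filter (fun C => (⟨r, hr⟩ : Fin (N+1)) ∉ C),
        EC m hr I π C := by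
    rw [Finset.sum_filter]
    refine sum_congr rfl (fun C _ => ?_)
    unfold EC
    by_cases hrC : (⟨r, hr⟩ : Fin (N+1)) ∉ C
    · rw [if_pos hrC]
      refine sum_congr rfl (fun σ _ => ?_)
      have : (QS m σ C).2 = C := rfl
      rw [this]
      simp only [hrC, not_false_iff, and_true]
    · rw [if_neg hrC]
      apply Finset.sum_eq_zero
      intro σ _
      have : (QS m σ C).2 = C := rfl
      rw [this, if_neg (fun h => hrC h.2), mul_zero]
  rw [h3, h2] at h1
  have h4 : ∑ σ, π σ * (if Ev hr.le I (fun j : Fin m => thr (j.val + 1) σ) ∧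
      (⟨r, hr⟩ : Fin (N+1)) ∉ thr c σ then (1:ℝ) else 0) =
      ∑ σ, π σ * (if (∀ a, (σ (Fin.castLE hr.le a)).val = I a) ∧ c ≤ (σ ⟨r, hr⟩).val
      then 1 else 0) := by
    refine sum_congr rfl (fun σ _ => ?_)
    simp only [Ev_thr hr.le I hI σ, mem_thr, not_lt]
  simp only at h1
  rw [h4] at h1
  have h5 : ((N.choose c : ℕ) : ℝ) * ((N:ℝ) + 1) = ((N+1).choose c : ℝ) * ((N:ℝ) + 1 - c) := by
    have := Nat.choose_mul_succ_eq N c
    have h6 : ((N.choose c * (N + 1) : ℕ) : ℝ) = (((N+1).choose c * (N + 1 - c) : ℕ) : ℝ) := by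
      rw [this]
    push_cast [Nat.cast_sub hc] at h6
    exact h6
  have h7 : ((N+1).choose c : ℝ) ≠ 0 := by
    have := Nat.choose_pos hc
    positivity
  have h8 : ((N:ℝ) + 1) ≠ 0 := by positivity
  rw [div_mul_eq_mul_div, eq_div_iff h8]
  apply mul_left_cancel₀ h7
  rw [← mul_assoc, ← h1, ← mul_assoc, ← h5]
  ring

end count

/-- the balance equations give stationarity against test functions -/
lemma stat_of_balance (π : Equiv.Perm (Fin (N+1)) → ℝ)
    (hst : ∀ τ : Equiv.Perm (Fin (N+1)),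
        π τ * ((Finset.univ.filter (fun j : Fin (N+1) => τ (j + 1) < τ j)).card : ℝ)
          = ∑ j ∈ Finset.univ.filter (fun j : Fin (N+1) => τ j < τ (j + 1)),
              π (τ * Equiv.swap j (j + 1)))
    (g : Equiv.Perm (Fin (N+1)) → ℝ) :
    ∑ σ, π σ * ∑ x, g (TP x σ) = ((N : ℝ) + 1) * ∑ σ, π σ * g σ := by
  classical
  have h1 : ∀ σ x, π σ * g (TP x σ) =
      (if σ (x + 1) < σ x then π σ * g (σ * Equiv.swap x (x + 1)) else 0) +
      (if σ (x + 1) < σ x then 0 else π σ * g σ) := by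
    intro σ x
    unfold TP
    split_ifs <;> ring
  have h2 : ∀ x : Fin (N+1),
      ∑ σ : Equiv.Perm (Fin (N+1)),
        (if σ (x + 1) < σ x then π σ * g (σ * Equiv.swap x (x + 1)) else 0) =
      ∑ τ : Equiv.Perm (Fin (N+1)),
        (if τ x < τ (x + 1) then π (τ * Equiv.swap x (x + 1)) * g τ else 0) := by
    intro x
    rw [← Equiv.sum_comp (Equiv.mulRight (Equiv.swap x (x + 1)))]
    refine sum_congr rfl (fun τ _ => ?_)
    simp only [Equiv.coe_mulRight, Equiv.Perm.mul_apply, Equiv.swap_apply_left,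
      Equiv.swap_apply_right, mul_assoc, Equiv.swap_mul_self, mul_one]
  calc ∑ σ, π σ * ∑ x, g (TP x σ)
      = ∑ x, ∑ σ, π σ * g (TP x σ) := by
        simp only [Finset.mul_sum]
        rw [sum_comm]
    _ = ∑ x, (∑ τ : Equiv.Perm (Fin (N+1)),
        (if τ x < τ (x + 1) then π (τ * Equiv.swap x (x + 1)) * g τ else 0) +
        ∑ σ : Equiv.Perm (Fin (N+1)), (if σ (x + 1) < σ x then 0 else π σ * g σ)) := by
        refine sum_congr rfl (fun x _ => ?_)
        rw [← h2 x, ← sum_add_distrib]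
        exact sum_congr rfl (fun σ _ => h1 σ x)
    _ = ∑ τ, (g τ * ∑ x ∈ univ.filter (fun x => τ x < τ (x + 1)),
          π (τ * Equiv.swap x (x + 1)) +
          ∑ x, (if τ (x + 1) < τ x then 0 else π τ * g τ)) := by
        rw [sum_add_distrib, sum_comm, sum_comm (f := fun x σ => if σ (x + 1) < σ x then 0 else
          π σ * g σ), ← sum_add_distrib]
        refine sum_congr rfl (fun τ _ => ?_)
        congr 1
        rw [Finset.mul_sum, Finset.sum_filter]
        refine sum_congr rfl (fun x _ => ?_)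
        split_ifs <;> ring
    _ = ∑ τ, ((N : ℝ) + 1) * (π τ * g τ) := by
        refine sum_congr rfl (fun τ _ => ?_)
        rw [← hst τ]
        have h3 : ∑ x, (if τ (x + 1) < τ x then 0 else π τ * g τ) =
            ((univ.filter (fun x => ¬ τ (x + 1) < τ x)).card : ℝ) * (π τ * g τ) := by
          rw [← nsmul_eq_mul, ← sum_const, Finset.sum_filter]
          refine sum_congr rfl (fun x _ => ?_)
          split_ifs <;> rfl
        rw [h3]
        have h4 : ((univ.filter (fun x => τ (x + 1) < τ x)).card : ℝ) +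
            ((univ.filter (fun x => ¬ τ (x + 1) < τ x)).card : ℝ) = (N : ℝ) + 1 := by
          have := Finset.card_filter_add_card_filter_not (s := (univ : Finset (Fin (N+1))))
            (fun x => τ (x + 1) < τ x)
          rw [card_univ, Fintype.card_fin] at this
          exact_mod_cast this
        rw [← h4]
        ring
    _ = _ := by rw [← Finset.mul_sum]

end Pool.Agent.H409R3.TR
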